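import Mathlib

/-!
# Chains of length `𝔠`
-/

namespace Pool.Agent.H44G

open Set Cardinal

theorem exists_chainB {P : Type} [Preorder P] {Ω : Type} (S : P → Set Ω)
    (hsup : ∀ C : Set P, IsChain (· ≤ ·) C → ∃ u, (∀ p ∈ C, p ≤ u) ∧ S u ⊆ ⋃ p ∈ C, S p)
    {T : Type} [Nonempty T] (hT : #T ≤ 𝔠) (R : T → P → P → Prop)
    (hR : ∀ t p, ∃ q, p ≤ q ∧ R t p q ∧ (S q \ S p).Countable) (p0 : P)
    (hp0 : (S p0).Countable) :
    ∃ C : Set P, IsChain (· ≤ ·) C ∧ p0 ∈ C ∧ (∀ p ∈ C, #(S p) < 𝔠) ∧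
      ∀ t, ∃ p ∈ C, ∃ q ∈ C, p ≤ q ∧ R t p q := by
  let W : Type := (𝔠 : Cardinal.{0}).ord.ToType
  have hW : #W = 𝔠 := Cardinal.mk_ord_toType _
  have hIio : ∀ w : W, #(Set.Iio w) < 𝔠 := fun w => Cardinal.mk_Iio_toType_ord_lt w
  have hWne : Nonempty W := by
    rw [← Cardinal.mk_ne_zero_iff, hW]
    exact Cardinal.continuum_ne_zero
  obtain ⟨g, hg⟩ : ∃ g : W → T, Function.Surjective g := by
    have : #T ≤ #W := by rw [hW]; exact hT
    obtain ⟨f⟩ := this
    exact ⟨Function.invFun f, Function.invFun_surjective f.injective⟩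
  choose r hr1 hr2 hr3 using hR
  have hPne : Nonempty P := ⟨p0⟩
  choose! sp hsp1 hsp2 using hsup
  classical
  let Fx : (β : W) → ((γ : W) → γ < β → P) → P := fun β ih =>
    sp (insert p0 {x | ∃ γ, ∃ hγ : γ < β, x = r (g γ) (ih γ hγ)})
  let u : W → P := WellFounded.fix (wellFounded_lt (α := W)) Fx
  have hu : ∀ β, u β = sp (insert p0 {x | ∃ γ, ∃ _ : γ < β, x = r (g γ) (u γ)}) :=
    fun β => WellFounded.fix_eq _ _ _
  have hmain : ∀ β, p0 ≤ u β ∧ (∀ γ < β, r (g γ) (u γ) ≤ u β) ∧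
      S (u β) ⊆ S p0 ∪ ⋃ γ ∈ Iio β, S (r (g γ) (u γ)) := by
    intro β
    induction β using WellFoundedLT.induction with
    | ind β ih =>
      have hch : IsChain (· ≤ ·) (insert p0 {x | ∃ γ, ∃ _ : γ < β, x = r (g γ) (u γ)}) := by
        have key : ∀ γ γ', γ' < β → γ < γ' → r (g γ) (u γ) ≤ r (g γ') (u γ') := by
          intro γ γ' h1 h2
          exact ((ih γ' h1).2.1 γ h2).trans (hr1 _ _)
        have key0 : ∀ γ < β, p0 ≤ r (g γ) (u γ) := fun γ hγ => (ih γ hγ).1.trans (hr1 _ _)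
        rintro x (rfl | ⟨γ, hγ, rfl⟩) y (rfl | ⟨γ', hγ', rfl⟩) hne
        · exact absurd rfl hne
        · exact Or.inl (key0 γ' hγ')
        · exact Or.inr (key0 γ hγ)
        · rcases lt_trichotomy γ γ' with h | h | h
          · exact Or.inl (key _ _ hγ' h)
          · subst h; exact absurd rfl hne
          · exact Or.inr (key _ _ hγ h)
      rw [hu]
      refine ⟨hsp1 _ hch _ (mem_insert _ _), fun γ hγ =>
        hsp1 _ hch _ (mem_insert_of_mem _ ⟨γ, hγ, rfl⟩), (hsp2 _ hch).trans ?_⟩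
      apply iUnion₂_subset
      rintro x (rfl | ⟨γ, hγ, rfl⟩)
      · exact subset_union_left
      · intro x hx
        right
        simp only [mem_iUnion]
        exact ⟨γ, mem_Iio.2 hγ, hx⟩
  have hlt : ∀ α β, α < β → u α ≤ u β := fun α β h => (hr1 _ _).trans ((hmain β).2.1 α h)
  have hlt' : ∀ α β, α < β → r (g α) (u α) ≤ r (g β) (u β) :=
    fun α β h => ((hmain β).2.1 α h).trans (hr1 _ _)
  have hnew : ∀ β, S (u β) ⊆ S p0 ∪ ⋃ γ ∈ Iio β, (S (r (g γ) (u γ)) \ S (u γ)) := by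
    intro β
    induction β using WellFoundedLT.induction with
    | ind β ih =>
      intro x hx
      rcases (hmain β).2.2 hx with h | h
      · exact Or.inl h
      · simp only [mem_iUnion] at h
        obtain ⟨γ, hγ, h⟩ := h
        by_cases hxu : x ∈ S (u γ)
        · rcases ih γ hγ hxu with h2 | h2
          · exact Or.inl h2
          · right
            simp only [mem_iUnion] at h2 ⊢
            obtain ⟨δ, hδ, h2⟩ := h2
            exact ⟨δ, mem_Iio.2 (lt_trans (mem_Iio.1 hδ) (mem_Iio.1 hγ)), h2⟩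
        · right
          simp only [mem_iUnion]
          exact ⟨γ, hγ, h, hxu⟩
  have hcardu : ∀ β, #(S (u β)) < 𝔠 := by
    intro β
    have h1 : #(S (u β)) ≤ #(S p0) +
        #(⋃ γ : Iio β, (S (r (g γ) (u γ)) \ S (u γ)) : Set Ω) := by
      refine (Cardinal.mk_le_mk_of_subset (hnew β)).trans ?_
      rw [biUnion_eq_iUnion]
      exact Cardinal.mk_union_le _ _
    have h2 : #(⋃ γ : Iio β, (S (r (g γ) (u γ)) \ S (u γ)) : Set Ω) ≤ #(Iio β) * ℵ₀ := by
      refine (Cardinal.mk_iUnion_le _).trans ?_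
      apply mul_le_mul_right
      apply ciSup_le'
      intro γ
      exact Cardinal.mk_le_aleph0_iff.2 (hr3 _ _)
    have h3 : #(S p0) < 𝔠 :=
      (Cardinal.mk_le_aleph0_iff.2 hp0).trans_lt Cardinal.aleph0_lt_continuum
    have h4 : #(Iio β) * ℵ₀ < 𝔠 :=
      Cardinal.mul_lt_of_lt Cardinal.aleph0_le_continuum (hIio β) Cardinal.aleph0_lt_continuum
    exact (h1.trans (add_le_add le_rfl h2)).trans_lt
      (Cardinal.add_lt_of_lt Cardinal.aleph0_le_continuum h3 h4)
  have hcardr : ∀ β, #(S (r (g β) (u β))) < 𝔠 := by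
    intro β
    have h1 : S (r (g β) (u β)) ⊆ S (u β) ∪ (S (r (g β) (u β)) \ S (u β)) := by
      intro x hx
      by_cases h : x ∈ S (u β)
      · exact Or.inl h
      · exact Or.inr ⟨hx, h⟩
    refine ((Cardinal.mk_le_mk_of_subset h1).trans (Cardinal.mk_union_le _ _)).trans_lt ?_
    exact Cardinal.add_lt_of_lt Cardinal.aleph0_le_continuum (hcardu β)
      ((Cardinal.mk_le_aleph0_iff.2 (hr3 _ _)).trans_lt Cardinal.aleph0_lt_continuum)
  refine ⟨insert p0 (range u ∪ range fun β => r (g β) (u β)), ?_, mem_insert _ _, ?_, ?_⟩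
  · have huu : ∀ α β, u α ≤ u β ∨ u β ≤ u α := by
      intro α β
      rcases lt_trichotomy α β with h | rfl | h
      · exact Or.inl (hlt _ _ h)
      · exact Or.inl le_rfl
      · exact Or.inr (hlt _ _ h)
    have hur : ∀ α β, u α ≤ r (g β) (u β) ∨ r (g β) (u β) ≤ u α := by
      intro α β
      rcases lt_trichotomy α β with h | rfl | h
      · exact Or.inl ((hlt _ _ h).trans (hr1 _ _))
      · exact Or.inl (hr1 _ _)
      · exact Or.inr ((hmain α).2.1 β h)
    have hrr : ∀ α β, r (g α) (u α) ≤ r (g β) (u β) ∨ r (g β) (u β) ≤ r (g α) (u α) := by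
      intro α β
      rcases lt_trichotomy α β with h | rfl | h
      · exact Or.inl (hlt' _ _ h)
      · exact Or.inl le_rfl
      · exact Or.inr (hlt' _ _ h)
    rintro x (rfl | ⟨α, rfl⟩ | ⟨α, rfl⟩) y (rfl | ⟨β, rfl⟩ | ⟨β, rfl⟩) hne
    · exact absurd rfl hne
    · exact Or.inl (hmain β).1
    · exact Or.inl ((hmain β).1.trans (hr1 _ _))
    · exact Or.inr (hmain α).1
    · exact huu α β
    · exact hur α β
    · exact Or.inr ((hmain α).1.trans (hr1 _ _))
    · exact (hur β α).symm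
    · exact hrr α β
  · rintro p (rfl | ⟨α, rfl⟩ | ⟨α, rfl⟩)
    · exact (Cardinal.mk_le_aleph0_iff.2 hp0).trans_lt Cardinal.aleph0_lt_continuum
    · exact hcardu α
    · exact hcardr α
  · intro t
    obtain ⟨w, hw⟩ := hg t
    refine ⟨u w, Or.inr (Or.inl ⟨w, rfl⟩), r (g w) (u w), Or.inr (Or.inr ⟨w, rfl⟩), hr1 _ _, ?_⟩
    have := hr2 (g w) (u w)
    rwa [hw] at this ⊢

end Pool.Agent.H44G
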