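import Mathlib
import Pool.Agent.Lib.H44.Groth.Defs

/-!
# MP_9ba03c_gt under `𝔟 = 𝔠` : interface between the combinatorial and the topological half

See `README.md` in this folder for the paper proof.  `cut`, `mem_cut`, `Null` come from
`Pool.Agent.Lib.H44.Groth.Defs`.
-/

namespace Pool.Agent.H44G

open Set Filter Topology Cardinal

/-- `𝔟 = 𝔠`: every family of fewer than `𝔠` functions `ℕ → ℕ` is eventually dominated. -/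
def BEqC : Prop :=
  ∀ H : Set (ℕ → ℕ), #H < 𝔠 → ∃ g : ℕ → ℕ, ∀ h ∈ H, ∀ᶠ n in atTop, h n ≤ g n

/-- `y =* a`. -/
def EqStar (y a : Set ℕ) : Prop := (symmDiff y a).Finite

/-- `|φ n (y ∩ j)| ≤ ε` for almost all `n ∈ J` and almost all `j`. -/
def SmallE (φ : ℕ → Finset ℕ → ℝ) (J : Set ℕ) (ε : ℝ) (y : Set ℕ) : Prop :=
  ∃ N, ∀ n ∈ J, N ≤ n → ∃ j₀, ∀ j ≥ j₀, |φ n (cut y j)| ≤ ε

/-- `s ∪ (a \ k)`. -/
def shift (s : Finset ℕ) (a : Set ℕ) (k : ℕ) : Set ℕ := ↑s ∪ {x ∈ a | k ≤ x}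

/-- The trichotomy for sequences of functions. -/
def TaskB (A : Set (Set ℕ)) : Prop :=
  ∀ φ : ℕ → Finset ℕ → ℝ, ∀ B ⊆ A, B.Countable → ∀ ψ : ℕ → Set ℕ → ℝ,
    (∃ J : Set ℕ, J.Infinite ∧ (∀ s, Null (fun n => φ n s) J) ∧
      (∀ b ∈ B, ∀ y, EqStar y b → Null (fun n => ψ n y) J) ∧
      ∀ a ∈ A \ B, ∀ s : Finset ℕ, ∀ ε > 0, ∀ K : ℕ, ∃ k ≥ K, SmallE φ J ε (shift s a k)) ∨
    (∃ s : Finset ℕ, ∃ ε > 0, ∃ a y : ℕ → Set ℕ, Function.Injective a ∧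
      (∀ r, a r ∈ A \ B ∧ EqStar (y r) (a r) ∧ ∀ x < r, (x ∈ y r ↔ x ∈ s)) ∧
      ∃ J : Set ℕ, J.Infinite ∧ Null (fun n => φ n s) J ∧
        ∀ r, ∃ N, ∀ n ∈ J, N ≤ n → ∀ j₀, ∃ j ≥ j₀, ε < |φ n (cut (y r) j)|) ∨
    (∃ B' ⊆ A, #B' < 𝔠 ∧ ¬ ∃ J : Set ℕ, J.Infinite ∧ (∀ s, Null (fun n => φ n s) J) ∧
      (∀ b ∈ B, ∀ y, EqStar y b → Null (fun n => ψ n y) J) ∧
      ∀ a ∈ B' \ B, ∀ y, EqStar y a → ∀ ε > 0, SmallE φ J ε y)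

/-- The combinatorial object. -/
structure FamB (A : Bool → Set (Set ℕ)) : Prop where
  inf : ∀ i, ∀ a ∈ A i, a.Infinite
  ad : ∀ i i', ∀ a ∈ A i, ∀ a' ∈ A i', (i ≠ i' ∨ a ≠ a') → (a ∩ a').Finite
  big : (⋃ i, A i).Infinite
  mad : ∀ Z : Set ℕ, Z.Infinite → ∃ i, ∃ a ∈ A i, (a ∩ Z).Infinite
  task : ∀ i, TaskB (A i)

end Pool.Agent.H44G
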