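import Mathlib
import Pool.Agent.Lib.H44.Groth.TDefs
import Pool.Agent.Lib.H44.GrothB.Defs

/-!
# MP_9ba03c_gt under `𝔟 = 𝔠`, chunk S : the space `XB A`

Points: the finite subsets of `ℕ` and all sets `y =* a`, `a ∈ A`.
-/

namespace Pool.Agent.H44G

open Set Filter Topology

/-- The points: finite sets and finite modifications of the members of `A`. -/
def XB (A : Set (Set ℕ)) : Type := {y : Set ℕ // y.Finite ∨ ∃ a ∈ A, EqStar y a}

theorem EqStar.refl (a : Set ℕ) : EqStar a a := by simp [EqStar]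

theorem EqStar.symm {a b : Set ℕ} (h : EqStar a b) : EqStar b a := by
  unfold EqStar at *; rwa [symmDiff_comm]

theorem EqStar.trans {a b c : Set ℕ} (h : EqStar a b) (h' : EqStar b c) : EqStar a c :=
  (Set.Finite.union h h').subset (symmDiff_triangle a b c)

namespace XB

variable {A : Set (Set ℕ)}

open Classical in
/-- coordinates: membership of `n`, and the indicators of the classes `{y | y =* a}`. -/
noncomputable def emb (y : XB A) : ℕ ⊕ A → Bool
  | .inl n => decide (n ∈ y.1)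
  | .inr a => decide (EqStar y.1 a.1)

noncomputable instance : TopologicalSpace (XB A) := TopologicalSpace.induced emb inferInstance

theorem isEmbedding_emb : IsEmbedding (emb : XB A → _) where
  eq_induced := rfl
  injective x y h := by
    apply Subtype.ext
    ext n
    have := congrFun h (.inl n)
    simpa [emb] using this

instance : T35Space (XB A) := isEmbedding_emb.t35Space

/-- finite points -/
def fin (s : Finset ℕ) : XB A := ⟨↑s, Or.inl s.finite_toSet⟩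

/-- infinite points -/
def pt (y a : Set ℕ) (ha : a ∈ A) (h : EqStar y a) : XB A := ⟨y, Or.inr ⟨a, ha, h⟩⟩

theorem eq_fin_or (y : XB A) : (∃ s : Finset ℕ, y = fin s) ∨ ∃ a ∈ A, EqStar y.1 a := by
  sorry

/-- At most one `a ∈ A` has `y =* a`. -/
theorem unique_of_eqStar (hinf : ∀ a ∈ A, a.Infinite)
    (had : ∀ a ∈ A, ∀ a' ∈ A, a ≠ a' → (a ∩ a').Finite) {y a a' : Set ℕ} (ha : a ∈ A)
    (ha' : a' ∈ A) (h : EqStar y a) (h' : EqStar y a') : a = a' := by
  sorry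

/-- convergence to a finite point -/
theorem tendsto_fin (hinf : ∀ a ∈ A, a.Infinite) {y : ℕ → XB A} {s : Finset ℕ}
    (h1 : ∀ m, ∀ᶠ r in atTop, ∀ x < m, (x ∈ (y r).1 ↔ x ∈ s))
    (h2 : ∀ a ∈ A, ∀ᶠ r in atTop, ¬ EqStar (y r).1 a) : Tendsto y atTop (𝓝 (fin s)) := by
  sorry

/-- convergence to an infinite point -/
theorem tendsto_inf (hinf : ∀ a ∈ A, a.Infinite)
    (had : ∀ a ∈ A, ∀ a' ∈ A, a ≠ a' → (a ∩ a').Finite) {y : ℕ → XB A} {y₀ : XB A} {a : Set ℕ}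
    (ha : a ∈ A) (h₀ : EqStar y₀.1 a) (h1 : ∀ m, ∀ᶠ r in atTop, ∀ x < m, (x ∈ (y r).1 ↔ x ∈ y₀.1))
    (h2 : ∀ᶠ r in atTop, EqStar (y r).1 a) : Tendsto y atTop (𝓝 y₀) := by
  sorry

/-- continuity at an infinite point -/
theorem cont_inf (hinf : ∀ a ∈ A, a.Infinite)
    (had : ∀ a ∈ A, ∀ a' ∈ A, a ≠ a' → (a ∩ a').Finite) {g : XB A → ℝ} (hg : Continuous g)
    {y₀ : XB A} {a : Set ℕ} (ha : a ∈ A) (h₀ : EqStar y₀.1 a) {ε : ℝ} (hε : 0 < ε) :
    ∃ m, ∀ y : XB A, EqStar y.1 a → (∀ x < m, (x ∈ y.1 ↔ x ∈ y₀.1)) → |g y - g y₀| < ε := by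
  sorry

/-- continuity at a finite point -/
theorem cont_fin (hinf : ∀ a ∈ A, a.Infinite) {g : XB A → ℝ} (hg : Continuous g)
    (s : Finset ℕ) {ε : ℝ} (hε : 0 < ε) :
    ∃ m, ∃ G : Set (Set ℕ), G.Finite ∧ G ⊆ A ∧ ∀ y : XB A, (∀ a ∈ G, ¬ EqStar y.1 a) →
      (∀ x < m, (x ∈ y.1 ↔ x ∈ s)) → |g y - g (fin s)| < ε := by
  sorry

theorem sequentialSpace (hinf : ∀ a ∈ A, a.Infinite)
    (had : ∀ a ∈ A, ∀ a' ∈ A, a ≠ a' → (a ∩ a').Finite) : SequentialSpace (XB A) := by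
  sorry

/-- Claim C: every continuous function is, at all but countably many classes, the limit of its
values at the finite points. -/
theorem exists_countable_N (hinf : ∀ a ∈ A, a.Infinite)
    (had : ∀ a ∈ A, ∀ a' ∈ A, a ≠ a' → (a ∩ a').Finite) {g : XB A → ℝ} (hg : Continuous g) :
    ∃ N ⊆ A, N.Countable ∧ ∀ a ∈ A \ N, ∀ y : XB A, EqStar y.1 a → ∀ ε > 0, ∃ m,
      ∀ s : Finset ℕ, (∀ x < m, (x ∈ s ↔ x ∈ y.1)) → |g (fin s) - g y| < ε := by
  sorry

end XB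

end Pool.Agent.H44G
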