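import Mathlib
import Pool.Agent.Lib.H44.GrothB.Space
import Pool.Agent.Lib.H44.Groth.Groth

/-!
# MP_9ba03c_gt under `𝔟 = 𝔠`, chunk B : convergent subsequences when `#A < 𝔠`
-/

namespace Pool.Agent.H44G

open Set Filter Topology Cardinal

variable {A : Set (Set ℕ)}

/-- If `#A < 𝔠 = 𝔟`, `M` is compact, `d n ∈ M` and every neighbourhood of `f` contains `d n` for
infinitely many `n`, then a subsequence converges to `f`. -/
theorem XB.exists_null_of_lt (hb : BEqC) (hinf : ∀ a ∈ A, a.Infinite)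
    (had : ∀ a ∈ A, ∀ a' ∈ A, a ≠ a' → (a ∩ a').Finite) (hA : #A < 𝔠)
    {M : Set (Cp (XB A))} (hM : IsCompact M) (d : ℕ → Cp (XB A)) (hd : ∀ n, d n ∈ M)
    (f : Cp (XB A))
    (hcl : ∀ E : Set (XB A), E.Finite → ∀ ε > 0, ∀ N, ∃ n ≥ N, ∀ x ∈ E,
      |(d n).1 x - f.1 x| < ε) :
    ∃ J : Set ℕ, J.Infinite ∧ ∀ x, Null (fun n => (d n).1 x - f.1 x) J := by
  sorry

end Pool.Agent.H44G
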