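import Mathlib
import Pool.Agent.Lib.H44.GrothB.Space
import Pool.Agent.Lib.H44.Groth.Groth

/-!
# MP_9ba03c_gt under `𝔟 = 𝔠`, chunk T : countable tightness of compact sets
-/

namespace Pool.Agent.H44G

open Set Filter Topology

variable {A : Set (Set ℕ)}

/-- The points over a subfamily. -/
def tiPts (A S : Set (Set ℕ)) : Set (XB A) := {y | y.1.Finite ∨ ∃ a ∈ S, EqStar y.1 a}

theorem tiClass_countable (a : Set ℕ) : {y : Set ℕ | EqStar y a}.Countable := by
  have h : {y : Set ℕ | EqStar y a} ⊆ range (fun s : Finset ℕ => symmDiff (↑s : Set ℕ) a) := by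
    intro y hy
    refine ⟨(show (symmDiff y a).Finite from hy).toFinset, ?_⟩
    simp
  exact (countable_range _).mono h

theorem tiPts_countable {S : Set (Set ℕ)} (hS : S.Countable) : (tiPts A S).Countable := by
  have h1 : {y : Set ℕ | y.Finite}.Countable := by
    have h : {y : Set ℕ | y.Finite} ⊆ range (fun s : Finset ℕ => (↑s : Set ℕ)) := by
      intro y hy
      exact ⟨(show y.Finite from hy).toFinset, by simp⟩
    exact (countable_range _).mono h
  have h2 : (⋃ a ∈ S, {y : Set ℕ | EqStar y a}).Countable :=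
    hS.biUnion fun a _ => tiClass_countable a
  have h3 : MapsTo (fun y : XB A => y.1) (tiPts A S)
      ({y : Set ℕ | y.Finite} ∪ ⋃ a ∈ S, {y : Set ℕ | EqStar y a}) := by
    rintro y (hy | ⟨a, ha, hya⟩)
    · exact .inl hy
    · exact .inr (mem_biUnion ha hya)
  exact h3.countable_of_injOn (Subtype.val_injective.injOn) (h1.union h2)

theorem tiEval (x : XB A) : Continuous fun f : Cp (XB A) => f.1 x :=
  (continuous_apply x).comp continuous_subtype_val

/-- one step of the closing off -/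
theorem tiStep {M : Set (Cp (XB A))} (hM : IsCompact M) {P : Set (Cp (XB A))} (hP : P ⊆ M)
    {f : Cp (XB A)} (hf : f ∈ closure P) {T : Set (XB A)} (hT : T.Countable) :
    ∃ PS ⊆ P, PS.Countable ∧ ∃ g ∈ closure PS, ∀ y ∈ T, g.1 y = f.1 y := by
  have : Countable T := hT.to_subtype
  let ρ : Cp (XB A) → (T → ℝ) := fun g y => g.1 y
  have hρ : Continuous ρ := continuous_pi fun y => tiEval y.1
  have h1 : ρ f ∈ closure (ρ '' P) := image_closure_subset_closure_image hρ ⟨f, hf, rfl⟩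
  obtain ⟨u, hu, hlim⟩ := mem_closure_iff_seq_limit.1 h1
  choose g hgP hg using hu
  refine ⟨range g, ?_, countable_range g, ?_⟩
  · rintro _ ⟨n, rfl⟩
    exact hgP n
  · let U : Ultrafilter (Cp (XB A)) := Ultrafilter.of (map g atTop)
    have hUle : (U : Filter (Cp (XB A))) ≤ map g atTop := Ultrafilter.of_le _
    have hUr : range g ∈ (U : Filter (Cp (XB A))) :=
      hUle (mem_map.2 (by filter_upwards with n using mem_range_self n))
    have hUM : (U : Filter (Cp (XB A))) ≤ 𝓟 M := by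
      rw [le_principal_iff]
      refine mem_of_superset hUr ?_
      rintro _ ⟨n, rfl⟩
      exact hP (hgP n)
    obtain ⟨g₀, hg₀M, hg₀⟩ := isCompact_iff_ultrafilter_le_nhds.1 hM U hUM
    refine ⟨g₀, mem_closure_iff_ultrafilter.2 ⟨U, hUr, hg₀⟩, fun y hy => ?_⟩
    have h2 : Tendsto (fun h : Cp (XB A) => h.1 y) U (𝓝 (g₀.1 y)) :=
      ((tiEval y).tendsto g₀).mono_left hg₀
    have h3 : Tendsto (fun h : Cp (XB A) => h.1 y) U (𝓝 (f.1 y)) := by
      have h4 : Tendsto (fun n => (g n).1 y) atTop (𝓝 (f.1 y)) := by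
        rw [tendsto_pi_nhds] at hlim
        have h5 := hlim ⟨y, hy⟩
        refine h5.congr fun n => ?_
        rw [← hg n]
      exact Tendsto.mono_left (tendsto_map'_iff.2 h4) hUle
    exact tendsto_nhds_unique h2 h3

/-- Compact subsets of `C_p(XB A)` are countably tight. -/
theorem XB.mem_closure_countable (hinf : ∀ a ∈ A, a.Infinite)
    (had : ∀ a ∈ A, ∀ a' ∈ A, a ≠ a' → (a ∩ a').Finite) {M : Set (Cp (XB A))} (hM : IsCompact M)
    {P : Set (Cp (XB A))} (hP : P ⊆ M) {f : Cp (XB A)} (hf : f ∈ closure P) :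
    ∃ P' ⊆ P, P'.Countable ∧ f ∈ closure P' := by
  have hstep : ∀ S : {S : Set (Set ℕ) // S ⊆ A ∧ S.Countable},
      ∃ (PS : Set (Cp (XB A))) (g : Cp (XB A)) (S' : {S : Set (Set ℕ) // S ⊆ A ∧ S.Countable}),
        PS ⊆ P ∧ PS.Countable ∧ g ∈ closure PS ∧ (∀ y ∈ tiPts A S.1, g.1 y = f.1 y) ∧
        S.1 ⊆ S'.1 ∧ ∀ a ∈ A \ S'.1, ∀ y : XB A, EqStar y.1 a → g.1 y = f.1 y := by
    intro S
    obtain ⟨PS, hPS, hPSc, g, hg, hgf⟩ := tiStep hM hP hf (tiPts_countable (A := A) S.2.2)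
    obtain ⟨N, hNA, hNc, hN⟩ := XB.exists_countable_N hinf had
      (g := fun y => g.1 y - f.1 y) (g.2.sub f.2)
    refine ⟨PS, g, ⟨S.1 ∪ N, union_subset S.2.1 hNA, S.2.2.union hNc⟩, hPS, hPSc, hg, hgf,
      subset_union_left, fun a ha y hya => ?_⟩
    have h0 : ∀ ε > 0, |g.1 y - f.1 y| ≤ ε := by
      intro ε hε
      obtain ⟨m, hm⟩ := hN a ⟨ha.1, fun h => ha.2 (.inr h)⟩ y hya ε hε
      classical
      have h1 := hm ((Finset.range m).filter (· ∈ y.1)) (fun x hx => by simp [hx])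
      have h2 : g.1 (XB.fin ((Finset.range m).filter (· ∈ y.1))) =
          f.1 (XB.fin ((Finset.range m).filter (· ∈ y.1))) :=
        hgf _ (.inl (Finset.finite_toSet _))
      rw [h2, sub_self, zero_sub, abs_neg] at h1
      exact h1.le
    have h3 : |g.1 y - f.1 y| ≤ 0 := le_of_forall_pos_le_add fun ε hε => by
      rw [zero_add]; exact h0 ε hε
    have h4 : g.1 y - f.1 y = 0 := abs_nonpos_iff.1 h3
    linarith
  choose PS g S' hPS hPSc hg hgf hSS' hgf' using hstep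
  let seq : ℕ → {S : Set (Set ℕ) // S ⊆ A ∧ S.Countable} := fun n =>
    Nat.rec ⟨∅, empty_subset _, countable_empty⟩ (fun _ S => S' S) n
  have hmono : Monotone fun n => (seq n).1 := monotone_nat_of_le_succ fun n => hSS' (seq n)
  refine ⟨⋃ n, PS (seq n), iUnion_subset fun n => hPS _, countable_iUnion fun n => hPSc _, ?_⟩
  rw [mem_closure_iff_nhds]
  intro W hW
  rw [nhds_subtype_eq_comap, mem_comap] at hW
  obtain ⟨V, hV, hVW⟩ := hW
  rw [nhds_pi, Filter.mem_pi] at hV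
  obtain ⟨I, hI, t, ht, htV⟩ := hV
  -- the index
  have hn : ∃ n, ∀ y ∈ I, (∃ m, y ∈ tiPts A (seq m).1) → y ∈ tiPts A (seq n).1 := by
    choose! m hm using fun (y : XB A) (h : ∃ m, y ∈ tiPts A (seq m).1) => h
    obtain ⟨n, hn⟩ := (hI.image m).bddAbove
    refine ⟨n, fun y hy hex => ?_⟩
    rcases hm y hex with h | ⟨a, ha, hya⟩
    · exact .inl h
    · exact .inr ⟨a, hmono (hn ⟨y, hy, rfl⟩) ha, hya⟩
  obtain ⟨n, hn⟩ := hn
  have heq : ∀ y ∈ I, (g (seq n)).1 y = f.1 y := by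
    intro y hy
    by_cases hex : ∃ m, y ∈ tiPts A (seq m).1
    · exact hgf _ y (hn y hy hex)
    · push Not at hex
      rcases y.2 with h | ⟨a, ha, hya⟩
      · exact absurd (.inl h) (hex 0)
      · exact hgf' (seq n) a ⟨ha, fun h => hex (n + 1) (.inr ⟨a, h, hya⟩)⟩ y hya
  have hW' : {h : Cp (XB A) | ∀ i ∈ I, h.1 i ∈ t i} ∈ 𝓝 (g (seq n)) := by
    have : ∀ᶠ h : Cp (XB A) in 𝓝 (g (seq n)), ∀ i ∈ I, h.1 i ∈ t i := by
      rw [eventually_all_finite hI]
      intro i hi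
      have h1 : t i ∈ 𝓝 ((g (seq n)).1 i) := by
        rw [heq i hi]; exact ht i
      exact (tiEval i).tendsto _ h1
    exact this
  obtain ⟨h, hhW, hhP⟩ := mem_closure_iff_nhds.1 (hg (seq n)) _ hW'
  refine ⟨h, hVW (htV fun i hi => hhW i hi), mem_iUnion.2 ⟨n, hhP⟩⟩

end Pool.Agent.H44G
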