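import Mathlib
import Pool.Agent.Lib.H44.GrothB.Tight
import Pool.Agent.Lib.H44.GrothB.SmallFU

/-!
# MP_9ba03c_gt under `𝔟 = 𝔠`, chunk M : compact subsets of `C_p(XB A)` are Fréchet–Urysohn
-/

namespace Pool.Agent.H44G

open Set Filter Topology Cardinal

variable {A : Set (Set ℕ)}

theorem XB.exists_seq_tendsto (hb : BEqC) (hinf : ∀ a ∈ A, a.Infinite)
    (had : ∀ a ∈ A, ∀ a' ∈ A, a ≠ a' → (a ∩ a').Finite) (ht : TaskB A)
    (M : Set (Cp (XB A))) (hM : IsCompact M) (P : Set (Cp (XB A))) (hPM : P ⊆ M)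
    (f : Cp (XB A)) (hf : f ∈ closure P) :
    ∃ u : ℕ → Cp (XB A), (∀ n, u n ∈ P) ∧ Tendsto u atTop (𝓝 f) := by
  sorry

theorem isGrothendieck_XB (hb : BEqC) (hinf : ∀ a ∈ A, a.Infinite)
    (had : ∀ a ∈ A, ∀ a' ∈ A, a ≠ a' → (a ∩ a').Finite) (ht : TaskB A) :
    IsGrothendieck (XB A) := by
  have := XB.sequentialSpace hinf had
  exact isGrothendieck_of_FU (XB.exists_seq_tendsto hb hinf had ht)

end Pool.Agent.H44G
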