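import Mathlib
import Pool.Agent.Lib.H44.GrothB.Space

/-!
# MP_9ba03c_gt under `𝔟 = 𝔠`, chunk N : the compact sets and the failure of Fréchet–Urysohn

Paper proof.  For `n : ℕ` let `eB n ∈ C(XB A)` be `y ↦ [n ∈ y]`, for `a ∈ A` let `dB a` be
`y ↦ [y =* a]`.  `KB A = {eB n} ∪ {dB a} ∪ {0}` is compact in `C_p(XB A)`: take an ultrafilter on
it containing no finite set and let `P` be the set of the points `y` with `f y = 1` for almost all
`f`.  No finite set is in `P`, two members of `P` are in the same class, and with a point its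
whole class is in `P`; so the limit is `0` or some `dB a`.
The failure of FU for the product is as in the CH version.
-/

namespace Pool.Agent.H44G

open Set Filter Topology

section KBDefs

variable {A : Set (Set ℕ)}

/-- evaluation of membership of `n` -/
noncomputable def eB (A : Set (Set ℕ)) (n : ℕ) : Cp (XB A) :=
  ⟨fun x => cond (XB.emb x (.inl n)) 1 0,
    ((continuous_of_discreteTopology (f := fun b : Bool => (cond b (1 : ℝ) 0 : ℝ))).comp
      (continuous_apply _)).comp XB.isEmbedding_emb.continuous⟩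

/-- indicator of a class -/
noncomputable def dB (A : Set (Set ℕ)) (Y : A) : Cp (XB A) :=
  ⟨fun x => cond (XB.emb x (.inr Y)) 1 0,
    ((continuous_of_discreteTopology (f := fun b : Bool => (cond b (1 : ℝ) 0 : ℝ))).comp
      (continuous_apply _)).comp XB.isEmbedding_emb.continuous⟩

/-- the zero function -/
noncomputable def zB (A : Set (Set ℕ)) : Cp (XB A) := ⟨fun _ => 0, continuous_const⟩

theorem eB_mem {n : ℕ} {x : XB A} (h : n ∈ x.1) : (eB A n).1 x = 1 := by
  simp [eB, XB.emb, h]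

theorem eB_not_mem {n : ℕ} {x : XB A} (h : n ∉ x.1) : (eB A n).1 x = 0 := by
  simp [eB, XB.emb, h]

theorem dB_eq {Y : A} {x : XB A} (h : EqStar x.1 Y.1) : (dB A Y).1 x = 1 := by
  simp [dB, XB.emb, h]

theorem dB_ne {Y : A} {x : XB A} (h : ¬ EqStar x.1 Y.1) : (dB A Y).1 x = 0 := by
  simp [dB, XB.emb, h]

/-- the compact set -/
def KB (A : Set (Set ℕ)) : Set (Cp (XB A)) := range (eB A) ∪ range (dB A) ∪ {zB A}

theorem KB_val {f : Cp (XB A)} (hf : f ∈ KB A) (x : XB A) : f.1 x = 1 ∨ f.1 x = 0 := by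
  rcases hf with (⟨n, rfl⟩ | ⟨Y, rfl⟩) | rfl
  · by_cases h : n ∈ x.1
    · exact .inl (eB_mem h)
    · exact .inr (eB_not_mem h)
  · by_cases h : EqStar x.1 Y.1
    · exact .inl (dB_eq h)
    · exact .inr (dB_ne h)
  · exact .inr rfl

theorem KB_one {f : Cp (XB A)} (hf : f ∈ KB A) {x : XB A} (h1 : f.1 x = 1) :
    (∃ n ∈ x.1, f = eB A n) ∨ ∃ Y : A, EqStar x.1 Y.1 ∧ f = dB A Y := by
  rcases hf with (⟨n, rfl⟩ | ⟨Y, rfl⟩) | rfl
  · by_cases h : n ∈ x.1
    · exact .inl ⟨n, h, rfl⟩
    · rw [eB_not_mem h] at h1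
      norm_num at h1
  · by_cases h : EqStar x.1 Y.1
    · exact .inr ⟨Y, h, rfl⟩
    · rw [dB_ne h] at h1
      norm_num at h1
  · norm_num [zB] at h1

theorem le_nhds_ofB {U : Filter (Cp (XB A))} {g : Cp (XB A)}
    (h : ∀ x, ∀ᶠ f in U, f.1 x = g.1 x) : U ≤ 𝓝 g := by
  have : Tendsto (fun f : Cp (XB A) => f) U (𝓝 g) := by
    rw [tendsto_subtype_rng, tendsto_pi_nhds]
    intro x
    exact tendsto_const_nhds.congr' ((h x).mono fun f hf => hf.symm)
  exact this

theorem notFinN {y a : Set ℕ} (h : EqStar y a) (ha : a.Infinite) : ¬ y.Finite := by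
  intro hy
  refine ha ((hy.union h).subset fun n hn => ?_)
  by_cases h' : n ∈ y
  · exact .inl h'
  · exact .inr (.inr ⟨hn, h'⟩)

/-- the intersection of a set with `y =* a` is finite if the one with `a` is. -/
theorem interFinN {y a b : Set ℕ} (h : EqStar y a) (hb : (b ∩ a).Finite) :
    (b ∩ y).Finite := by
  refine (hb.union h).subset fun n hn => ?_
  by_cases h' : n ∈ a
  · exact .inl ⟨hn.1, h'⟩
  · exact .inr (.inl ⟨hn.2, h'⟩)

theorem uniqN (hinf : ∀ Y ∈ A, Y.Infinite)
    (had : ∀ Y ∈ A, ∀ Y' ∈ A, Y ≠ Y' → (Y ∩ Y').Finite) {y a a' : Set ℕ} (ha : a ∈ A)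
    (ha' : a' ∈ A) (h : EqStar y a) (h' : EqStar y a') : a = a' := by
  by_contra hne
  have h1 : (a ∩ y).Finite := interFinN h' (had a ha a' ha' hne)
  refine hinf a ha ((h1.union h).subset fun n hn => ?_)
  by_cases h2 : n ∈ y
  · exact .inl ⟨hn, h2⟩
  · exact .inr (.inr ⟨hn, h2⟩)

theorem isCompact_KB (hinf : ∀ Y ∈ A, Y.Infinite)
    (had : ∀ Y ∈ A, ∀ Y' ∈ A, Y ≠ Y' → (Y ∩ Y').Finite) : IsCompact (KB A) := by
  rw [isCompact_iff_ultrafilter_le_nhds]
  intro U hU
  have hK : KB A ∈ U := by simpa using hU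
  by_cases hfin : ∃ T : Set (Cp (XB A)), T.Finite ∧ T ∈ U
  · obtain ⟨T, hT, hTU⟩ := hfin
    obtain ⟨f, hfT, hf⟩ := Ultrafilter.eq_pure_of_finite_mem hT hTU
    refine ⟨f, ?_, ?_⟩
    · rw [hf] at hK
      exact hK
    · rw [hf]
      exact pure_le_nhds f
  · push Not at hfin
    by_cases hP : ∃ x0 : XB A, ∀ᶠ f in (U : Filter (Cp (XB A))), f.1 x0 = 1
    · obtain ⟨x0, hx0⟩ := hP
      have hx0A : ∃ a ∈ A, EqStar x0.1 a := by
        rcases x0.2 with hf | hA
        · exfalso
          refine hfin ((eB A) '' x0.1) (hf.image _) ?_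
          filter_upwards [hK, hx0] with f hfK hf1
          rcases KB_one hfK hf1 with ⟨n, hn, rfl⟩ | ⟨Y, hY, rfl⟩
          · exact ⟨n, hn, rfl⟩
          · exact absurd hf (notFinN hY (hinf Y.1 Y.2))
        · exact hA
      obtain ⟨a, haA, hxa⟩ := hx0A
      refine ⟨dB A ⟨a, haA⟩, .inl (.inr ⟨_, rfl⟩), le_nhds_ofB fun x => ?_⟩
      by_cases hx : EqStar x.1 a
      · rw [dB_eq (by exact hx)]
        by_contra hcon
        -- `f x = 0` almost always
        have hx1 : ∀ᶠ f in (U : Filter (Cp (XB A))), ¬ f.1 x = 1 :=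
          (Ultrafilter.eventually_not (f := U)).2 hcon
        refine hfin ((eB A) '' (symmDiff x.1 x0.1)) (Set.Finite.image _ ?_) ?_
        · exact hx.trans hxa.symm
        · filter_upwards [hK, hx0, hx1] with f hfK hf0 hf1
          rcases KB_one hfK hf0 with ⟨n, hn, rfl⟩ | ⟨Y, hY, rfl⟩
          · refine ⟨n, .inr ⟨hn, fun h => hf1 (eB_mem h)⟩, rfl⟩
          · exact absurd (dB_eq ((hx.trans hxa.symm).trans hY)) hf1
      · rw [dB_ne (by exact hx)]
        by_contra hcon
        have hx1 : ∀ᶠ f in (U : Filter (Cp (XB A))), f.1 x = 1 := by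
          have := (Ultrafilter.eventually_not (f := U)).2 hcon
          filter_upwards [hK, this] with f hfK hf0
          rcases KB_val hfK x with h | h
          · exact h
          · exact absurd h hf0
        rcases x.2 with hf | ⟨a', ha'A, hxa'⟩
        · refine hfin ((eB A) '' x.1) (hf.image _) ?_
          filter_upwards [hK, hx1] with f hfK hf1
          rcases KB_one hfK hf1 with ⟨n, hn, rfl⟩ | ⟨Y, hY, rfl⟩
          · exact ⟨n, hn, rfl⟩
          · exact absurd hf (notFinN hY (hinf Y.1 Y.2))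
        · have hne : a' ≠ a := fun h => hx (h ▸ hxa')
          have hfi : (x.1 ∩ x0.1).Finite := by
            have h1 : (a' ∩ x0.1).Finite := interFinN hxa (had _ ha'A _ haA hne)
            rw [inter_comm] at h1 ⊢
            exact interFinN hxa' h1
          refine hfin ((eB A) '' (x.1 ∩ x0.1)) (hfi.image _) ?_
          filter_upwards [hK, hx0, hx1] with f hfK hf0 hf1
          rcases KB_one hfK hf1 with ⟨n, hn, rfl⟩ | ⟨Y, hY, rfl⟩
          · by_cases h0 : n ∈ x0.1
            · exact ⟨n, ⟨hn, h0⟩, rfl⟩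
            · rw [eB_not_mem h0] at hf0
              norm_num at hf0
          · have hYa' : Y.1 = a' := uniqN hinf had Y.2 ha'A hY hxa'
            by_cases h0 : EqStar x0.1 Y.1
            · exact absurd ((uniqN hinf had Y.2 haA h0 hxa).symm.trans hYa').symm hne
            · rw [dB_ne h0] at hf0
              norm_num at hf0
    · push Not at hP
      refine ⟨zB A, .inr rfl, le_nhds_ofB fun x => ?_⟩
      filter_upwards [hK, hP x] with f hfK hf0
      rcases KB_val hfK x with h | h
      · exact absurd h hf0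
      · exact h

end KBDefs

theorem exists_compact_not_FU_B {A : Bool → Set (Set ℕ)} (h : FamB A) :
    ∃ (K : Set (Cp (XB (A false)))) (L : Set (Cp (XB (A true)))), IsCompact K ∧ IsCompact L ∧
      ¬ FrechetUrysohnSpace (K × L) := by
  have had : ∀ i, ∀ Y ∈ A i, ∀ Y' ∈ A i, Y ≠ Y' → (Y ∩ Y').Finite :=
    fun i Y hY Y' hY' hne => h.ad i i Y hY Y' hY' (.inr hne)
  refine ⟨KB (A false), KB (A true),
    isCompact_KB (h.inf false) (had false), isCompact_KB (h.inf true) (had true), ?_⟩
  intro hFU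
  let p : ℕ → KB (A false) × KB (A true) := fun n =>
    (⟨eB (A false) n, .inl (.inl ⟨n, rfl⟩)⟩, ⟨eB (A true) n, .inl (.inl ⟨n, rfl⟩)⟩)
  let z : KB (A false) × KB (A true) := (⟨zB (A false), .inr rfl⟩, ⟨zB (A true), .inr rfl⟩)
  have hcl : z ∈ closure (range p) := by
    -- the filter
    let Y : ℕ → Set ℕ := fun k => (h.big.natEmbedding _ k : Set ℕ)
    have hY : ∀ k, ∃ i, Y k ∈ A i := fun k => by
      have h2 : Y k ∈ ⋃ i, A i := (h.big.natEmbedding _ k).2
      rw [mem_iUnion] at h2
      exact h2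
    have hYinj : Function.Injective Y := fun a b hab =>
      (h.big.natEmbedding _).injective (Subtype.ext hab)
    have hkey : ∀ x : Set ℕ, (x.Finite ∨ ∃ i, ∃ a ∈ A i, EqStar x a) →
        ∀ᶠ n in (atTop : Filter ℕ).bind (fun k => cofinite ⊓ 𝓟 (Y k)), n ∉ x := by
      intro x hx
      have hxk : ∀ᶠ k in atTop, (Y k ∩ x).Finite := by
        rcases hx with hx | ⟨i, a, ha, hxa⟩
        · exact Eventually.of_forall fun k => hx.subset inter_subset_right
        · by_cases hex : ∃ k, Y k = a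
          · obtain ⟨k, rfl⟩ := hex
            filter_upwards [eventually_gt_atTop k] with j hj
            obtain ⟨i', hi'⟩ := hY j
            exact interFinN hxa
              (h.ad i' i _ hi' _ ha (.inr fun hjk => (hYinj hjk ▸ hj).false))
          · push Not at hex
            refine Eventually.of_forall fun k => ?_
            obtain ⟨i', hi'⟩ := hY k
            exact interFinN hxa (h.ad i' i _ hi' _ ha (.inr (hex k)))
      rw [Filter.Eventually, mem_bind']
      filter_upwards [hxk] with k hk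
      change ∀ᶠ n in cofinite ⊓ 𝓟 (Y k), n ∉ x
      rw [eventually_inf_principal, eventually_cofinite]
      refine hk.subset fun n hn => ?_
      simp only [mem_ofPred_eq, not_forall, not_not] at hn
      obtain ⟨h1, h2⟩ := hn
      exact ⟨h1, h2⟩
    have hF : ((atTop : Filter ℕ).bind (fun k => cofinite ⊓ 𝓟 (Y k))).NeBot := by
      refine neBot_iff.2 fun hbot => ?_
      have hemp := empty_mem_iff_bot.2 hbot
      rw [mem_bind'] at hemp
      obtain ⟨k, hk⟩ := (show ∀ᶠ k in atTop, ∅ ∈ cofinite ⊓ 𝓟 (Y k) from hemp).exists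
      obtain ⟨i, hi⟩ := hY k
      rw [mem_inf_principal] at hk
      have := h.inf i _ hi
      apply this
      rw [mem_cofinite] at hk
      refine hk.subset fun n hn => ?_
      simp [hn]
    have hlim : Tendsto p ((atTop : Filter ℕ).bind (fun k => cofinite ⊓ 𝓟 (Y k))) (𝓝 z) := by
      rw [nhds_prod_eq]
      refine Tendsto.prodMk ?_ ?_
      · rw [tendsto_subtype_rng, tendsto_subtype_rng, tendsto_pi_nhds]
        intro x
        refine tendsto_const_nhds.congr' ?_
        filter_upwards [hkey x.1 (x.2.imp id fun hx => ⟨false, hx⟩)] with n hn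
        exact (eB_not_mem hn).symm
      · rw [tendsto_subtype_rng, tendsto_subtype_rng, tendsto_pi_nhds]
        intro x
        refine tendsto_const_nhds.congr' ?_
        filter_upwards [hkey x.1 (x.2.imp id fun hx => ⟨true, hx⟩)] with n hn
        exact (eB_not_mem hn).symm
    exact mem_closure_of_tendsto hlim (Eventually.of_forall fun n => ⟨n, rfl⟩)
  obtain ⟨x, hx, hlim⟩ := mem_closure_iff_seq_limit.1 hcl
  choose u hu using hx
  have hfalse : ∀ y : XB (A false), ∀ᶠ k in atTop, u k ∉ y.1 := by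
    intro y
    have h1 : Tendsto (fun k => ((x k).1.1 : Cp (XB (A false))).1 y) atTop (𝓝 0) := by
      have h2 : Tendsto (fun k => (x k).1) atTop (𝓝 z.1) := (continuous_fst.tendsto z).comp hlim
      rw [tendsto_subtype_rng, tendsto_subtype_rng, tendsto_pi_nhds] at h2
      exact h2 y
    have h3 : ∀ᶠ k in atTop, ((x k).1.1 : Cp (XB (A false))).1 y < 1 :=
      h1.eventually_lt_const zero_lt_one
    filter_upwards [h3] with k hk hmem
    rw [← hu k] at hk
    change (eB (A false) (u k)).1 y < 1 at hk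
    rw [eB_mem hmem] at hk
    exact lt_irrefl _ hk
  have htrue : ∀ y : XB (A true), ∀ᶠ k in atTop, u k ∉ y.1 := by
    intro y
    have h1 : Tendsto (fun k => ((x k).2.1 : Cp (XB (A true))).1 y) atTop (𝓝 0) := by
      have h2 : Tendsto (fun k => (x k).2) atTop (𝓝 z.2) := (continuous_snd.tendsto z).comp hlim
      rw [tendsto_subtype_rng, tendsto_subtype_rng, tendsto_pi_nhds] at h2
      exact h2 y
    have h3 : ∀ᶠ k in atTop, ((x k).2.1 : Cp (XB (A true))).1 y < 1 :=
      h1.eventually_lt_const zero_lt_one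
    filter_upwards [h3] with k hk hmem
    rw [← hu k] at hk
    change (eB (A true) (u k)).1 y < 1 at hk
    rw [eB_mem hmem] at hk
    exact lt_irrefl _ hk
  have hinf : (range u).Infinite := by
    intro hf
    obtain ⟨k, hk⟩ := (hfalse ⟨range u, .inl hf⟩).exists
    exact hk ⟨k, rfl⟩
  obtain ⟨i, Y, hYA, hYinf⟩ := h.mad _ hinf
  have hev : ∀ᶠ k in atTop, u k ∉ Y := by
    cases i with
    | false => exact hfalse ⟨Y, .inr ⟨Y, hYA, EqStar.refl Y⟩⟩
    | true => exact htrue ⟨Y, .inr ⟨Y, hYA, EqStar.refl Y⟩⟩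
  obtain ⟨N, hN⟩ := eventually_atTop.1 hev
  refine hYinf (((finite_lt_nat N).image u).subset ?_)
  rintro _ ⟨hnY, ⟨k, rfl⟩⟩
  refine ⟨k, ?_, rfl⟩
  by_contra hk
  exact hN k (not_lt.1 hk) hnY

end Pool.Agent.H44G
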