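import Mathlib
import Pool.Agent.Lib.H44.GrothB.Defs
import Pool.Agent.Lib.H44.GrothB.Chain
import Pool.Agent.Lib.H44.Groth.Fam

/-!
# MP_9ba03c_gt under `𝔟 = 𝔠`, chunk C : the recursion
-/

namespace Pool.Agent.H44G

open Set Cardinal

/-- States: pairs of almost disjoint families. -/
structure StB where
  A : Bool → Set (Set ℕ)
  inf : ∀ i, ∀ a ∈ A i, a.Infinite
  ad : ∀ i i', ∀ a ∈ A i, ∀ a' ∈ A i', (i ≠ i' ∨ a ≠ a') → (a ∩ a').Finite

namespace StB

def all (p : StB) : Set (Set ℕ) := ⋃ i, p.A i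

theorem A_sub_all (p : StB) (i : Bool) : p.A i ⊆ p.all := subset_iUnion _ i

instance : Preorder StB where
  le p q := ∀ i, p.A i ⊆ q.A i
  le_refl p i := subset_rfl
  le_trans p q r h1 h2 i := (h1 i).trans (h2 i)

/-- `V` can be added. -/
structure OK (p : StB) (V : Set (Set ℕ)) : Prop where
  cV : V.Countable
  inf : ∀ c ∈ V, c.Infinite
  adp : ∀ c ∈ V, Perp c p.all
  ad : ∀ c ∈ V, ∀ c' ∈ V, c ≠ c' → (c ∩ c').Finite

theorem ok_empty (p : StB) : OK p ∅ := ⟨countable_empty, by simp, by simp, by simp⟩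

theorem OK.mono {p : StB} {V V' : Set (Set ℕ)} (h : OK p V) (hV : V' ⊆ V) : OK p V' where
  cV := h.cV.mono hV
  inf c hc := h.inf c (hV hc)
  adp c hc := h.adp c (hV hc)
  ad c hc c' hc' := h.ad c (hV hc) c' (hV hc')

theorem ok_iUnion {p : StB} {V : ℕ → Set (Set ℕ)} (h : ∀ k, OK p (V k)) (hV : Monotone V) :
    OK p (⋃ k, V k) where
  cV := countable_iUnion fun k => (h k).cV
  inf c hc := by
    obtain ⟨k, hk⟩ := mem_iUnion.1 hc
    exact (h k).inf c hk
  adp c hc := by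
    obtain ⟨k, hk⟩ := mem_iUnion.1 hc
    exact (h k).adp c hk
  ad c hc c' hc' := by
    obtain ⟨k, hk⟩ := mem_iUnion.1 hc
    obtain ⟨l, hl⟩ := mem_iUnion.1 hc'
    exact (h (max k l)).ad c (hV (le_max_left k l) hk) c' (hV (le_max_right k l) hl)

theorem OK.insert {p : StB} {V : Set (Set ℕ)} (h : OK p V) {c : Set ℕ} (hc : c.Infinite)
    (hp : Perp c (p.all ∪ V)) : OK p (insert c V) where
  cV := h.cV.insert _
  inf := by
    rintro c' (rfl | hc')
    · exact hc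
    · exact h.inf c' hc'
  adp := by
    rintro c' (rfl | hc')
    · exact hp.mono subset_rfl subset_union_left
    · exact h.adp c' hc'
  ad := by
    rintro c1 (rfl | h1) c2 (rfl | h2) hne
    · exact absurd rfl hne
    · exact hp c2 (Or.inr h2)
    · rw [inter_comm]; exact hp c1 (Or.inr h1)
    · exact h.ad c1 h1 c2 h2 hne

open Classical in
/-- add `V` on side `i`. -/
noncomputable def addSide (p : StB) (i : Bool) (V : Set (Set ℕ)) (h : OK p V) : StB where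
  A j := if j = i then p.A j ∪ V else p.A j
  inf j c hc := by
    split_ifs at hc
    · rcases hc with hc | hc
      · exact p.inf j c hc
      · exact h.inf c hc
    · exact p.inf j c hc
  ad := by
    have key : ∀ j, ∀ c, c ∈ (if j = i then p.A j ∪ V else p.A j) →
        (c ∈ p.A j ∨ (j = i ∧ c ∈ V)) := by
      intro j c hc
      split_ifs at hc with hj
      · rcases hc with hc | hc
        · exact Or.inl hc
        · exact Or.inr ⟨hj, hc⟩
      · exact Or.inl hc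
    intro j j' c hc c' hc' hne
    rcases key j c hc with h1 | ⟨hj, h1⟩ <;> rcases key j' c' hc' with h2 | ⟨hj', h2⟩
    · exact p.ad j j' c h1 c' h2 hne
    · rw [inter_comm]; exact h.adp c' h2 c (p.A_sub_all j h1)
    · exact h.adp c h1 c' (p.A_sub_all j' h2)
    · rcases hne with hne | hne
      · exact absurd (hj.trans hj'.symm) hne
      · exact h.ad c h1 c' h2 hne

theorem le_addSide (p : StB) (i : Bool) (V : Set (Set ℕ)) (h : OK p V) : p ≤ p.addSide i V h := by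
  intro j
  simp only [addSide]
  split_ifs
  · exact subset_union_left
  · exact subset_rfl

theorem addSide_A_self (p : StB) (i : Bool) (V : Set (Set ℕ)) (h : OK p V) :
    (p.addSide i V h).A i = p.A i ∪ V := by simp [addSide]

theorem addSide_A_ne (p : StB) (i j : Bool) (V : Set (Set ℕ)) (h : OK p V) (hj : j ≠ i) :
    (p.addSide i V h).A j = p.A j := by simp [addSide, hj]

theorem addSide_all (p : StB) (i : Bool) (V : Set (Set ℕ)) (h : OK p V) :
    (p.addSide i V h).all = p.all ∪ V := by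
  apply Subset.antisymm
  · apply iUnion_subset
    intro j
    by_cases hj : j = i
    · subst hj
      rw [addSide_A_self]
      exact union_subset_union_left _ (p.A_sub_all j)
    · rw [addSide_A_ne _ _ _ _ _ hj]
      exact (p.A_sub_all j).trans subset_union_left
  · apply union_subset
    · exact iUnion_mono fun j => p.le_addSide i V h j
    · intro c hc
      apply (p.addSide i V h).A_sub_all i
      rw [addSide_A_self]
      exact Or.inr hc

theorem addSide_new (p : StB) (i : Bool) (V : Set (Set ℕ)) (h : OK p V) :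
    ((p.addSide i V h).all \ p.all).Countable := by
  rw [addSide_all]
  apply h.cV.mono
  rintro c ⟨h1 | h1, h2⟩
  · exact absurd h1 h2
  · exact h1

theorem exists_sup (C : Set StB) (hch : IsChain (· ≤ ·) C) :
    ∃ u : StB, (∀ p ∈ C, p ≤ u) ∧ u.all ⊆ ⋃ p ∈ C, p.all := by
  have hdir : ∀ p ∈ C, ∀ q ∈ C, ∃ r ∈ C, p ≤ r ∧ q ≤ r := by
    intro p hp q hq
    rcases hch.total hp hq with h | h
    · exact ⟨q, hq, h, le_rfl⟩
    · exact ⟨p, hp, le_rfl, h⟩
  refine ⟨⟨fun i => ⋃ p ∈ C, p.A i, ?_, ?_⟩, ?_, ?_⟩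
  · intro i Y hY
    simp only [mem_iUnion] at hY
    obtain ⟨p, hp, hY⟩ := hY
    exact p.inf i Y hY
  · intro i i' Y hY Y' hY' hne
    simp only [mem_iUnion] at hY hY'
    obtain ⟨p, hp, hY⟩ := hY
    obtain ⟨q, hq, hY'⟩ := hY'
    obtain ⟨r, hr, h1, h2⟩ := hdir p hp q hq
    exact r.ad i i' Y (h1 i hY) Y' (h2 i' hY') hne
  · intro p hp i
    exact subset_biUnion_of_mem (u := fun p : StB => p.A i) hp
  · apply iUnion_subset
    intro i
    apply iUnion₂_subset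
    intro p hp
    exact (p.A_sub_all i).trans (subset_biUnion_of_mem (u := fun p : StB => p.all) hp)

end StB

/-- `c` is `(s, ε)`-bad for `J`. -/
def BadB (φ : ℕ → Finset ℕ → ℝ) (J : Set ℕ) (ε : ℝ) (s : Finset ℕ) (c : Set ℕ) : Prop :=
  ∃ K, ∀ k ≥ K, ¬ SmallE φ J ε (shift s c k)

theorem SmallE.mono {φ : ℕ → Finset ℕ → ℝ} {J J' : Set ℕ} {ε ε' : ℝ} {y : Set ℕ}
    (h : SmallE φ J ε y) (hε : ε ≤ ε') (hJ : ∃ N, ∀ n ∈ J', N ≤ n → n ∈ J) :
    SmallE φ J' ε' y := by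
  obtain ⟨N, hN⟩ := h
  obtain ⟨N', hN'⟩ := hJ
  refine ⟨max N N', fun n hn hNn => ?_⟩
  obtain ⟨j₀, hj₀⟩ := hN n (hN' n hn ((le_max_right _ _).trans hNn)) ((le_max_left _ _).trans hNn)
  exact ⟨j₀, fun j hj => (hj₀ j hj).trans hε⟩

theorem BadB.mono {φ : ℕ → Finset ℕ → ℝ} {J J' : Set ℕ} {ε ε' : ℝ} {s : Finset ℕ} {c : Set ℕ}
    (h : BadB φ J ε s c) (hε : ε' ≤ ε) (hJ : ∃ N, ∀ n ∈ J, N ≤ n → n ∈ J') :
    BadB φ J' ε' s c := by
  obtain ⟨K, hK⟩ := h
  exact ⟨K, fun k hk hs => hK k hk (hs.mono hε hJ)⟩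

theorem eqStar_shift (s : Finset ℕ) (c : Set ℕ) (k : ℕ) : EqStar (shift s c k) c := by
  apply (s.finite_toSet.union (Set.finite_Iio k)).subset
  rintro x (⟨h1 | h1, h2⟩ | ⟨h1, h2⟩)
  · exact Or.inl h1
  · exact absurd h1.1 h2
  · right
    by_contra hk
    exact h2 (Or.inr ⟨h1, not_lt.1 hk⟩)

/-- One step of the process. -/
theorem bad_step {φ : ℕ → Finset ℕ → ℝ} {J : Set ℕ} {ε : ℝ} {s : Finset ℕ} {c : Set ℕ}
    (h : BadB φ J ε s c) (r : ℕ) :
    ∃ y, EqStar y c ∧ (∀ x < r, (x ∈ y ↔ x ∈ s)) ∧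
      {n ∈ J | ∀ j₀, ∃ j ≥ j₀, ε < |φ n (cut y j)|}.Infinite := by
  obtain ⟨K, hK⟩ := h
  refine ⟨shift s c (max K r), eqStar_shift _ _ _, ?_, ?_⟩
  · intro x hx
    constructor
    · rintro (h1 | ⟨_, h1⟩)
      · exact h1
      · have := le_max_right K r
        omega
    · exact fun h1 => Or.inl h1
  · apply Set.infinite_of_forall_exists_gt
    intro N
    have h1 := hK (max K r) (le_max_left _ _)
    unfold SmallE at h1
    push Not at h1
    obtain ⟨n, hn, hNn, h2⟩ := h1 (N + 1)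
    exact ⟨n, ⟨hn, h2⟩, hNn⟩

/-- A violation. -/
def ViolB (p : StB) (X : Set (Set ℕ)) (φ : ℕ → Finset ℕ → ℝ) (I : Set ℕ) : Prop :=
  ∃ s : Finset ℕ, ∃ ε > 0, ∃ c y : ℕ → Set ℕ, Function.Injective c ∧ StB.OK p (range c) ∧
    (∀ r, c r ∉ X ∧ EqStar (y r) (c r) ∧ ∀ x < r, (x ∈ y r ↔ x ∈ s)) ∧
    ∃ J ⊆ I, J.Infinite ∧
      ∀ r, ∃ N, ∀ n ∈ J, N ≤ n → ∀ j₀, ∃ j ≥ j₀, ε < |φ n (cut (y r) j)|

theorem not_bad_of_not_viol {p : StB} {X : Set (Set ℕ)} {φ : ℕ → Finset ℕ → ℝ} {I : Set ℕ}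
    (hv : ¬ ViolB p X φ I) (s : Finset ℕ) {ε : ℝ} (hε : 0 < ε) {V : Set (Set ℕ)}
    (hV : StB.OK p V) {J : Set ℕ} (hJI : J ⊆ I) (hJ : J.Infinite) :
    ∃ V', V ⊆ V' ∧ StB.OK p V' ∧ ∃ J' ⊆ J, J'.Infinite ∧
      ∀ c : Set ℕ, c.Infinite → Perp c (p.all ∪ V') → c ∉ X → ¬ BadB φ J' ε s c := by
  by_contra hcon
  push Not at hcon
  let P := {q : Set (Set ℕ) × Set ℕ // V ⊆ q.1 ∧ StB.OK p q.1 ∧ q.2 ⊆ J ∧ q.2.Infinite}
  have hstep : ∀ (k : ℕ) (q : P), ∃ r : P, ∃ c y : Set ℕ, r.1.1 = insert c q.1.1 ∧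
      r.1.2 ⊆ q.1.2 ∧ c ∉ X ∧ c.Infinite ∧ Perp c q.1.1 ∧ EqStar y c ∧
      (∀ x < k, (x ∈ y ↔ x ∈ s)) ∧
      ∀ n ∈ r.1.2, ∀ j₀, ∃ j ≥ j₀, ε < |φ n (cut y j)| := by
    rintro k ⟨⟨V', J'⟩, h1, h2, h3, h4⟩
    obtain ⟨c, hc, hcp, hcX, hbad⟩ := hcon V' h1 h2 J' h3 h4
    obtain ⟨y, hy1, hy2, hy3⟩ := bad_step hbad k
    exact ⟨⟨(insert c V', {n ∈ J' | ∀ j₀, ∃ j ≥ j₀, ε < |φ n (cut y j)|}),
      h1.trans (subset_insert _ _), h2.insert hc hcp, fun n hn => h3 hn.1, hy3⟩, c, y, rfl,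
      fun n hn => hn.1, hcX, hc, hcp.mono subset_rfl subset_union_right, hy1, hy2,
      fun n hn => hn.2⟩
  choose nx c y hins hsub hcX hcinf hcp heq hag hlarge using hstep
  let p0 : P := ⟨(V, J), subset_rfl, hV, subset_rfl, hJ⟩
  let f : ℕ → P := fun k => Nat.rec p0 (fun k p => nx k p) k
  have hf : ∀ k, f (k + 1) = nx k (f k) := fun k => rfl
  have hJanti : Antitone fun k => (f k).1.2 := by
    apply antitone_nat_of_succ_le
    intro k
    rw [hf]; exact hsub k (f k)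
  have hVmono : Monotone fun k => (f k).1.1 := by
    apply monotone_nat_of_le_succ
    intro k
    rw [hf, hins]; exact subset_insert _ _
  have hok : StB.OK p (⋃ k, (f k).1.1) := StB.ok_iUnion (fun k => (f k).2.2.1) hVmono
  obtain ⟨J', hJ'0, hJ'i, hJ'⟩ := exists_pseudo (fun k => (f k).1.2) (fun k => (f k).2.2.2.2)
    hJanti
  have hcmem : ∀ k, c k (f k) ∈ (f (k + 1)).1.1 := by
    intro k
    rw [hf, hins]
    exact mem_insert _ _
  apply hv
  refine ⟨s, ε, hε, fun k => c k (f k), fun k => y k (f k), ?_, hok.mono ?_,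
    fun k => ⟨hcX k (f k), heq k (f k), hag k (f k)⟩, J',
    hJ'0.trans ((f 0).2.2.2.1.trans hJI), hJ'i, ?_⟩
  · have key : ∀ k l, k < l → c k (f k) ≠ c l (f l) := by
      intro k l hkl he
      have h1 := hcp l (f l) (c k (f k)) (hVmono (show k + 1 ≤ l from hkl) (hcmem k))
      rw [he, inter_self] at h1
      exact hcinf l (f l) h1
    intro k l hkl
    rcases lt_trichotomy k l with h | h | h
    · exact absurd hkl (key k l h)
    · exact h
    · exact absurd hkl.symm (key l k h)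
  · rintro _ ⟨k, rfl⟩
    exact mem_iUnion.2 ⟨k + 1, hcmem k⟩
  · intro k
    obtain ⟨N, hN⟩ := hJ' (k + 1)
    refine ⟨N, fun n hn hNn => ?_⟩
    have := hN n hn hNn
    simp only [hf] at this
    exact hlarge k (f k) n this

theorem all_not_bad {p : StB} {X : Set (Set ℕ)} {φ : ℕ → Finset ℕ → ℝ} {I : Set ℕ}
    (hI : I.Infinite) (hv : ¬ ViolB p X φ I) :
    ∃ V, StB.OK p V ∧ ∃ J ⊆ I, J.Infinite ∧ ∀ c : Set ℕ, c.Infinite → Perp c (p.all ∪ V) →
      c ∉ X → ∀ s, ∀ ε > 0, ¬ BadB φ J ε s c := by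
  obtain ⟨e, he⟩ := exists_surjective_nat (Finset ℕ × ℕ)
  let P := {q : Set (Set ℕ) × Set ℕ // StB.OK p q.1 ∧ q.2 ⊆ I ∧ q.2.Infinite}
  have hstep : ∀ (k : ℕ) (q : P), ∃ r : P, q.1.1 ⊆ r.1.1 ∧ r.1.2 ⊆ q.1.2 ∧
      ∀ c : Set ℕ, c.Infinite → Perp c (p.all ∪ r.1.1) → c ∉ X →
        ¬ BadB φ r.1.2 (1 / ((e k).2 + 1)) (e k).1 c := by
    rintro k ⟨⟨V', J'⟩, h1, h2, h3⟩
    obtain ⟨V1, hV1, hok1, J1, hJ1, hJ1i, hg⟩ := not_bad_of_not_viol hv (e k).1
      (ε := 1 / ((e k).2 + 1)) (by positivity) h1 h2 h3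
    exact ⟨⟨(V1, J1), hok1, hJ1.trans h2, hJ1i⟩, hV1, hJ1, hg⟩
  choose nx hVs hJs hgood using hstep
  let p0 : P := ⟨(∅, I), StB.ok_empty p, subset_rfl, hI⟩
  let f : ℕ → P := fun k => Nat.rec p0 (fun k p => nx k p) k
  have hf : ∀ k, f (k + 1) = nx k (f k) := fun k => rfl
  have hJanti : Antitone fun k => (f k).1.2 := by
    apply antitone_nat_of_succ_le
    intro k
    rw [hf]; exact hJs k (f k)
  have hVmono : Monotone fun k => (f k).1.1 := by
    apply monotone_nat_of_le_succ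
    intro k
    rw [hf]; exact hVs k (f k)
  have hok : StB.OK p (⋃ k, (f k).1.1) := StB.ok_iUnion (fun k => (f k).2.1) hVmono
  obtain ⟨J', hJ'0, hJ'i, hJ'⟩ := exists_pseudo (fun k => (f k).1.2) (fun k => (f k).2.2.2)
    hJanti
  refine ⟨_, hok, J', hJ'0, hJ'i, ?_⟩
  intro c hc hcp hcX s ε hε hbad
  obtain ⟨m, hm⟩ := exists_nat_one_div_lt hε
  obtain ⟨i, hi⟩ := he (s, m)
  have h1 := hgood i (f i) c hc (by
    rw [← hf]
    exact hcp.mono subset_rfl (union_subset_union_right _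
      (subset_iUnion (fun k => (f k).1.1) (i + 1)))) hcX
  rw [hi, ← hf] at h1
  exact h1 (hbad.mono hm.le (hJ' (i + 1)))

/-! ### Tasks -/

/-- The codes of the tasks. -/
abbrev TkB : Type := Set ℕ ⊕ (Bool × (ℕ → Finset ℕ → ℝ) × (ℕ → Set ℕ) × (ℕ → ℕ → ℝ))

theorem mk_TkB_le : #TkB ≤ 𝔠 := by
  have hset : #(Set ℕ) ≤ 𝔠 := by
    rw [Cardinal.mk_set, Cardinal.mk_nat, Cardinal.two_power_aleph0]
  have hreal : #ℝ ≤ 𝔠 := Cardinal.mk_real.le
  apply mk_sum_le_continuum _ _ hset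
  apply mk_prod_le_continuum _ _ (mk_countable_le _)
  apply mk_prod_le_continuum
  · exact mk_arrow_le_continuum _ _ (mk_arrow_le_continuum _ _ hreal)
  · apply mk_prod_le_continuum
    · exact mk_arrow_le_continuum _ _ hset
    · exact mk_arrow_le_continuum _ _ (mk_arrow_le_continuum _ _ hreal)

/-- the exceptional class coded by `β` -/
def Exc (β : ℕ → Set ℕ) : Set (Set ℕ) := {a | ∃ k, EqStar (β k) a}

/-- `J` is a candidate for the task relative to `A`. -/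
def LimB (φ : ℕ → Finset ℕ → ℝ) (β : ℕ → Set ℕ) (ψ : ℕ → ℕ → ℝ) (A : Set (Set ℕ))
    (J : Set ℕ) : Prop :=
  J.Infinite ∧ (∀ s, Null (fun n => φ n s) J) ∧
    (∀ k, (β k).Infinite → Null (fun n => ψ n k) J) ∧
    ∀ a ∈ A, a ∉ Exc β → ∀ y, EqStar y a → ∀ ε > 0, SmallE φ J ε y

/-- What a state `q ≥ p` must do for the task. -/
def RelB : TkB → StB → StB → Prop
  | .inl Z, _, q => Z.Infinite → ∃ i, ∃ a ∈ q.A i, (a ∩ Z).Infinite
  | .inr (i, φ, β, ψ), p, q =>
      (∃ J, LimB φ β ψ (q.A i) J ∧ ∀ c : Set ℕ, c.Infinite → Perp c q.all → c ∉ Exc β →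
        ∀ s, ∀ ε > 0, ¬ BadB φ J ε s c) ∨
      (∃ s : Finset ℕ, ∃ ε > 0, ∃ c y : ℕ → Set ℕ, Function.Injective c ∧
        (∀ r, c r ∈ q.A i ∧ c r ∉ Exc β ∧ EqStar (y r) (c r) ∧ ∀ x < r, (x ∈ y r ↔ x ∈ s)) ∧
        ∃ J : Set ℕ, J.Infinite ∧ Null (fun n => φ n s) J ∧
          ∀ r, ∃ N, ∀ n ∈ J, N ≤ n → ∀ j₀, ∃ j ≥ j₀, ε < |φ n (cut (y r) j)|) ∨
      (¬ ∃ J, LimB φ β ψ (p.A i) J)

theorem exists_relB (t : TkB) (p : StB) : ∃ q, p ≤ q ∧ RelB t p q ∧ (q.all \ p.all).Countable := by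
  rcases t with Z | ⟨i, φ, β, ψ⟩
  · by_cases hZ : Z.Infinite
    swap
    · exact ⟨p, le_rfl, fun h => absurd h hZ, by simp⟩
    by_cases hp : Perp Z p.all
    · have hok : StB.OK p {Z} := by
        have := (StB.ok_empty p).insert hZ (by rwa [union_empty])
        rwa [insert_empty_eq] at this
      refine ⟨p.addSide false _ hok, p.le_addSide _ _ _, fun _ => ⟨false, Z, ?_, ?_⟩,
        p.addSide_new _ _ _⟩
      · rw [StB.addSide_A_self]
        exact Or.inr rfl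
      · rwa [inter_self]
    · simp only [Perp, not_forall] at hp
      obtain ⟨Y, hY, hYZ⟩ := hp
      obtain ⟨i, hi⟩ := mem_iUnion.1 hY
      refine ⟨p, le_rfl, fun _ => ⟨i, Y, hi, ?_⟩, by simp⟩
      rw [inter_comm]
      exact hYZ
  · by_cases hL : ∃ J, LimB φ β ψ (p.A i) J
    swap
    · exact ⟨p, le_rfl, Or.inr (Or.inr hL), by simp⟩
    obtain ⟨I, hI, h1, h2, h3⟩ := hL
    by_cases hv : ViolB p (Exc β) φ I
    · obtain ⟨s, ε, hε, c, y, hinj, hok, hag, J, hJI, hJ, hlarge⟩ := hv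
      refine ⟨p.addSide i _ hok, p.le_addSide _ _ _, Or.inr (Or.inl
        ⟨s, ε, hε, c, y, hinj, ?_, J, hJ, (h1 s).mono hJI, hlarge⟩), p.addSide_new _ _ _⟩
      intro k
      refine ⟨?_, hag k⟩
      rw [StB.addSide_A_self]
      exact Or.inr (mem_range_self k)
    · obtain ⟨V, hok, J, hJI, hJ, hgood⟩ := all_not_bad hI hv
      have hne : i ≠ !i := by cases i <;> simp
      have hA : (p.addSide (!i) V hok).A i = p.A i := StB.addSide_A_ne _ _ _ _ _ hne
      have hsub : ∃ N, ∀ n ∈ J, N ≤ n → n ∈ I := ⟨0, fun n hn _ => hJI hn⟩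
      refine ⟨p.addSide (!i) V hok, p.le_addSide _ _ _, Or.inl ⟨J, ⟨hJ, fun s => (h1 s).mono hJI,
        fun k hk => (h2 k hk).mono hJI, ?_⟩, ?_⟩, p.addSide_new _ _ _⟩
      · rw [hA]
        exact fun a ha haX y hy ε hε => (h3 a ha haX y hy ε hε).mono le_rfl hsub
      · rw [StB.addSide_all]
        exact hgood

/-- initial state -/
def StB.init : StB where
  A := fun i => if i then ∅ else range col
  inf := by
    rintro (_ | _) a ha
    · obtain ⟨k, rfl⟩ := ha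
      exact col_infinite k
    · exact absurd ha (by simp)
  ad := by
    rintro (_ | _) (_ | _) a ha a' ha' hne
    · obtain ⟨k, rfl⟩ := ha
      obtain ⟨l, rfl⟩ := ha'
      rcases hne with hne | hne
      · exact absurd rfl hne
      · rw [col_disj (fun h => hne (by rw [h]))]
        exact finite_empty
    · exact absurd ha' (by simp)
    · exact absurd ha (by simp)
    · exact absurd ha (by simp)

theorem StB.init_countable : (StB.init.all).Countable := by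
  apply countable_iUnion
  rintro (_ | _)
  · exact countable_range _
  · exact countable_empty

theorem countable_class (b : Set ℕ) : {y | EqStar y b}.Countable := by
  have h : {y | EqStar y b} ⊆ (fun u => symmDiff u b) '' {u : Set ℕ | u.Finite} := by
    intro y hy
    exact ⟨symmDiff y b, hy, by simp⟩
  exact (Set.Countable.ofPred_finite.image _).mono h

theorem exists_enum {A B : Set (Set ℕ)} (hinf : ∀ a ∈ A, a.Infinite)
    (had : ∀ a ∈ A, ∀ a' ∈ A, a ≠ a' → (a ∩ a').Finite) (hB : B ⊆ A) (hBc : B.Countable) :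
    ∃ β : ℕ → Set ℕ, (∀ k, (β k).Infinite → ∃ b ∈ B, EqStar (β k) b) ∧
      (∀ b ∈ B, ∀ y, EqStar y b → ∃ k, β k = y) ∧ ∀ a ∈ A, (a ∈ Exc β ↔ a ∈ B) := by
  have eqStar_self : ∀ a, EqStar a a := by
    intro a
    simp [EqStar]
  rcases B.eq_empty_or_nonempty with rfl | ⟨b₀, hb₀⟩
  · refine ⟨fun _ => ∅, fun k hk => absurd hk (by simp), by simp, ?_⟩
    intro a ha
    simp only [mem_empty_iff_false, iff_false]
    rintro ⟨k, hk⟩
    apply hinf a ha
    exact hk.subset fun x hx => Or.inr ⟨hx, by simp⟩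
  · have hc : (⋃ b ∈ B, {y | EqStar y b}).Countable := hBc.biUnion fun b _ => countable_class b
    have hne : (⋃ b ∈ B, {y | EqStar y b}).Nonempty :=
      ⟨b₀, mem_biUnion hb₀ (eqStar_self b₀)⟩
    obtain ⟨β, hβ⟩ := hc.exists_eq_range hne
    have hmem : ∀ y, (∃ k, β k = y) ↔ ∃ b ∈ B, EqStar y b := by
      intro y
      have : y ∈ range β ↔ y ∈ ⋃ b ∈ B, {y | EqStar y b} := by rw [hβ]
      simpa using this
    refine ⟨β, fun k _ => (hmem _).1 ⟨k, rfl⟩, fun b hb y hy => (hmem y).2 ⟨b, hb, hy⟩, ?_⟩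
    intro a ha
    constructor
    · rintro ⟨k, hk⟩
      obtain ⟨b, hb, hkb⟩ := (hmem _).1 ⟨k, rfl⟩
      by_cases hab : a = b
      · rw [hab]; exact hb
      · exfalso
        have h1 := had a ha b (hB hb) hab
        apply hinf a ha
        apply ((h1.union hk).union hkb).subset
        intro x hx
        by_cases hxb : x ∈ b
        · exact Or.inl (Or.inl ⟨hx, hxb⟩)
        · by_cases hxk : x ∈ β k
          · exact Or.inr (Or.inl ⟨hxk, hxb⟩)
          · exact Or.inl (Or.inr (Or.inr ⟨hx, hxk⟩))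
    · intro haB
      obtain ⟨k, hk⟩ := (hmem a).2 ⟨a, haB, eqStar_self a⟩
      exact ⟨k, by rw [hk]; exact eqStar_self a⟩

theorem exists_famB : ∃ A : Bool → Set (Set ℕ), FamB A := by
  obtain ⟨C, hch, hinit, hcard, hrel⟩ := exists_chainB StB.all StB.exists_sup (T := TkB)
    mk_TkB_le RelB exists_relB StB.init StB.init_countable
  have hdir : ∀ p ∈ C, ∀ q ∈ C, ∃ r ∈ C, p ≤ r ∧ q ≤ r := by
    intro p hp q hq
    rcases hch.total hp hq with h | h
    · exact ⟨q, hq, h, le_rfl⟩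
    · exact ⟨p, hp, le_rfl, h⟩
  let A : Bool → Set (Set ℕ) := fun i => ⋃ p ∈ C, p.A i
  have memA : ∀ i Y, Y ∈ A i ↔ ∃ p ∈ C, Y ∈ p.A i := by
    intro i Y
    simp only [A, mem_iUnion, exists_prop]
  have subA : ∀ i, ∀ p ∈ C, p.A i ⊆ A i := fun i p hp Y hY => (memA i Y).2 ⟨p, hp, hY⟩
  have hinf : ∀ i, ∀ Y ∈ A i, Y.Infinite := by
    intro i Y hY
    obtain ⟨p, hp, hY⟩ := (memA i Y).1 hY
    exact p.inf i Y hY
  have had : ∀ i i', ∀ a ∈ A i, ∀ a' ∈ A i', (i ≠ i' ∨ a ≠ a') → (a ∩ a').Finite := by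
    intro i i' Y hY Y' hY' hne
    obtain ⟨p, hp, hY⟩ := (memA i Y).1 hY
    obtain ⟨q, hq, hY'⟩ := (memA i' Y').1 hY'
    obtain ⟨r, hr, h1, h2⟩ := hdir p hp q hq
    exact r.ad i i' Y (h1 i hY) Y' (h2 i' hY') hne
  refine ⟨A, hinf, had, ?_, ?_, ?_⟩
  · have h1 : range col ⊆ ⋃ i, A i := by
      intro Y hY
      exact mem_iUnion.2 ⟨false, subA false _ hinit hY⟩
    apply Set.Infinite.mono h1
    apply Set.infinite_range_of_injective
    intro k l h
    by_contra hne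
    have h2 := col_disj hne
    rw [h, inter_self] at h2
    exact (col_infinite l).nonempty.ne_empty h2
  · intro Z hZ
    obtain ⟨p, hp, q, hq, -, hR⟩ := hrel (.inl Z)
    obtain ⟨i, Y, hY, hYZ⟩ := hR hZ
    exact ⟨i, Y, subA i q hq hY, hYZ⟩
  · intro i φ B hB hBc ψ
    -- enumerate the points of `B`
    have hβ : ∃ β : ℕ → Set ℕ, (∀ k, (β k).Infinite → ∃ b ∈ B, EqStar (β k) b) ∧
        (∀ b ∈ B, ∀ y, EqStar y b → ∃ k, β k = y) ∧ ∀ a ∈ A i, (a ∈ Exc β ↔ a ∈ B) :=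
      exists_enum (hinf i) (fun a ha a' ha' h => had i i a ha a' ha' (Or.inr h)) hB hBc
    obtain ⟨β, hβ1, hβ2, hβ3⟩ := hβ
    obtain ⟨p, hp, q, hq, hpq, hR⟩ := hrel (.inr (i, φ, β, fun n k => ψ n (β k)))
    have hnull : ∀ J, (∀ k, (β k).Infinite → Null (fun n => ψ n (β k)) J) ↔
        (∀ b ∈ B, ∀ y, EqStar y b → Null (fun n => ψ n y) J) := by
      intro J
      constructor
      · intro h b hb y hy
        obtain ⟨k, rfl⟩ := hβ2 b hb y hy
        apply h k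
        intro hfin
        have hbinf := hinf i b (hB hb)
        apply hbinf
        apply (hfin.union hy).subset
        intro x hx
        by_cases hxy : x ∈ β k
        · exact Or.inl hxy
        · exact Or.inr (Or.inr ⟨hx, hxy⟩)
      · intro h k hk
        obtain ⟨b, hb, hkb⟩ := hβ1 k hk
        exact h b hb _ hkb
    rcases hR with ⟨J, hJ, hgood⟩ | ⟨s, ε, hε, c, y, hinj, hc, J, hJ, hn, hlarge⟩ | hno
    · left
      refine ⟨J, hJ.1, hJ.2.1, (hnull J).1 hJ.2.2.1, ?_⟩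
      intro a ha s ε hε K
      have haX : a ∉ Exc β := fun h => ha.2 ((hβ3 a ha.1).1 h)
      by_cases haq : a ∈ q.A i
      · exact ⟨K, le_rfl, hJ.2.2.2 a haq haX _ (eqStar_shift _ _ _) ε hε⟩
      · have hperp : Perp a q.all := by
          intro b hb
          obtain ⟨i', hi'⟩ := mem_iUnion.1 hb
          apply had i i' a ha.1 b (subA i' q hq hi')
          by_cases hii : i = i'
          · subst hii
            right
            rintro rfl
            exact haq hi'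
          · exact Or.inl hii
        have := hgood a (hinf i a ha.1) hperp haX s ε hε
        unfold BadB at this
        push Not at this
        obtain ⟨k, hk, h⟩ := this K
        exact ⟨k, hk, h⟩
    · right; left
      refine ⟨s, ε, hε, c, y, hinj, ?_, J, hJ, hn, hlarge⟩
      intro r
      have hcA := subA i q hq (hc r).1
      exact ⟨⟨hcA, fun h => (hc r).2.1 ((hβ3 _ hcA).2 h)⟩, (hc r).2.2⟩
    · right; right
      refine ⟨p.A i, subA i p hp, ?_, ?_⟩
      · exact (Cardinal.mk_le_mk_of_subset (p.A_sub_all i)).trans_lt (hcard p hp)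
      · rintro ⟨J, hJ⟩
        refine hno ⟨J, hJ.1, hJ.2.1, (hnull J).2 hJ.2.2.1, ?_⟩
        intro a ha haX
        exact hJ.2.2.2 a ⟨ha, fun h => haX ((hβ3 a (subA i p hp ha)).2 h)⟩

end Pool.Agent.H44G
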